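import Mathlib
import Pool.Agent.W732.Cor.Stm2

/-!
# Project COR: the basic integral
-/

set_option autoImplicit false

open MeasureTheory Metric Set Filter Topology Complex

namespace Pool.Agent.W540.Cor

/-- the integrand -/
noncomputable def F (w ζ : ℂ) : ℝ := {ζ : ℂ | 0 < ζ.im}.indicator
  (fun ζ => (1 / ζ.im) * (2 * √(ζ.im * w.im) / ‖w - starRingEnd ℂ ζ‖) * ‖w - ζ‖⁻¹) ζ

theorem inv_ball_int (w : ℂ) (r : ℝ) : IntegrableOn (fun ζ : ℂ => ‖w - ζ‖⁻¹) (ball w r) := by
  have h : IntegrableOn (fun w : ℂ => (‖w‖)⁻¹) (ball 0 r) := by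
    rw [integrableOn_fun_norm_addHaar (volume : Measure ℂ) (f := fun y : ℝ => y⁻¹) (r := r)]
    rw [Complex.finrank_real_complex]
    have h1 : IntegrableOn (fun _ : ℝ => (1:ℝ)) (Ioo 0 r) :=
      integrableOn_const measure_Ioo_lt_top.ne (by simp)
    refine h1.congr_fun ?_ measurableSet_Ioo
    intro y hy
    have hy0 : y ≠ 0 := hy.1.ne'
    simp [hy0]
  have h2 : Integrable ((ball (0 : ℂ) r).indicator (fun w : ℂ => (‖w‖)⁻¹)) :=
    (integrable_indicator_iff measurableSet_ball).2 h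
  have h3 := h2.comp_sub_left w
  have h4 : (fun t => (ball (0 : ℂ) r).indicator (fun w : ℂ => (‖w‖)⁻¹) (w - t)) =
      (ball w r).indicator (fun ζ : ℂ => ‖w - ζ‖⁻¹) := by
    funext t
    by_cases ht : t ∈ ball w r
    · have ht' : w - t ∈ ball (0 : ℂ) r := by
        rw [mem_ball, dist_comm, dist_eq_norm] at ht
        rwa [mem_ball_zero_iff]
      rw [indicator_of_mem ht, indicator_of_mem ht']
    · have ht' : w - t ∉ ball (0 : ℂ) r := by
        rw [mem_ball, dist_comm, dist_eq_norm] at ht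
        rwa [mem_ball_zero_iff]
      rw [indicator_of_notMem ht, indicator_of_notMem ht']
  rw [h4] at h3
  exact (integrable_indicator_iff measurableSet_ball).1 h3

lemma meas_upper : MeasurableSet {ζ : ℂ | 0 < ζ.im} :=
  measurableSet_lt measurable_const Complex.measurable_im

lemma F_meas (w : ℂ) : Measurable (F w) := by
  refine Measurable.indicator ?_ meas_upper
  have h1 : Measurable fun ζ : ℂ => ζ.im := Complex.measurable_im
  have h2 : Measurable fun ζ : ℂ => ‖w - starRingEnd ℂ ζ‖ :=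
    (measurable_const.sub Complex.continuous_conj.measurable).norm
  have h3 : Measurable fun ζ : ℂ => ‖w - ζ‖⁻¹ := (measurable_const.sub measurable_id).norm.inv
  exact ((measurable_const.div h1).mul ((measurable_const.mul
    (h1.mul measurable_const).sqrt).div h2)).mul h3

lemma F_nonneg (w ζ : ℂ) : 0 ≤ F w ζ := by
  refine indicator_nonneg (fun ζ hζ => ?_) _
  have : 0 < ζ.im := hζ
  positivity

/-- the factor depending on the imaginary part -/
noncomputable def aa (t : ℝ) : ℝ :=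
  (Ioi (0 : ℝ)).indicator (fun t => t ^ (-(1 / 2) : ℝ) * (1 + t) ^ (-(3 / 4) : ℝ)) t

/-- the factor depending on the real part -/
noncomputable def bb (x : ℝ) : ℝ := (1 + ‖x‖) ^ (-(5 / 4) : ℝ)

lemma bb_int : Integrable bb := by
  refine integrable_one_add_norm ?_
  rw [Module.finrank_self]
  norm_num

lemma aa_int : Integrable aa := by
  have hm : Measurable fun t : ℝ => t ^ (-(1 / 2) : ℝ) * (1 + t) ^ (-(3 / 4) : ℝ) := by
    fun_prop
  refine (integrable_indicator_iff measurableSet_Ioi).2 ?_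
  rw [← Ioc_union_Ioi_eq_Ioi (zero_le_one : (0 : ℝ) ≤ 1)]
  refine IntegrableOn.union ?_ ?_
  · have h1 : IntegrableOn (fun t : ℝ => t ^ (-(1 / 2) : ℝ)) (Ioc 0 1) := by
      have := intervalIntegral.intervalIntegrable_rpow' (a := 0) (b := 1) (r := -(1 / 2))
        (by norm_num)
      rwa [intervalIntegrable_iff_integrableOn_Ioc_of_le zero_le_one] at this
    refine Integrable.mono' h1 hm.aestronglyMeasurable ?_
    refine (ae_restrict_iff' measurableSet_Ioc).2 (Eventually.of_forall fun t ht => ?_)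
    have ht0 : 0 < t := ht.1
    rw [Real.norm_of_nonneg (by positivity)]
    refine mul_le_of_le_one_right (by positivity) ?_
    exact Real.rpow_le_one_of_one_le_of_nonpos (by linarith) (by norm_num)
  · have h1 : IntegrableOn (fun t : ℝ => t ^ (-(5 / 4) : ℝ)) (Ioi 1) :=
      integrableOn_Ioi_rpow_of_lt (by norm_num) one_pos
    refine Integrable.mono' h1 hm.aestronglyMeasurable ?_
    refine (ae_restrict_iff' measurableSet_Ioi).2 (Eventually.of_forall fun t ht => ?_)
    have ht0 : (0 : ℝ) < t := lt_trans one_pos ht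
    rw [Real.norm_of_nonneg (by positivity)]
    calc t ^ (-(1 / 2) : ℝ) * (1 + t) ^ (-(3 / 4) : ℝ)
        ≤ t ^ (-(1 / 2) : ℝ) * t ^ (-(3 / 4) : ℝ) := by
          refine mul_le_mul_of_nonneg_left ?_ (by positivity)
          exact Real.rpow_le_rpow_of_nonpos ht0 (by linarith) (by norm_num)
      _ = t ^ (-(5 / 4) : ℝ) := by
          rw [← Real.rpow_add ht0]
          norm_num

lemma prod_int : Integrable (fun ζ : ℂ => bb ζ.re * aa ζ.im) := by
  have h := bb_int.mul_prod aa_int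
  have h2 := Complex.volume_preserving_equiv_real_prod.integrable_comp_of_integrable h
  exact h2

lemma F_I_int : Integrable (F I) := by
  have h1 : Integrable ((ball I (1 / 2)).indicator (fun ζ : ℂ => 4 * ‖I - ζ‖⁻¹)) :=
    (integrable_indicator_iff measurableSet_ball).2 ((inv_ball_int I (1 / 2)).const_mul 4)
  refine (h1.add (prod_int.const_mul 24)).mono' (F_meas I).aestronglyMeasurable
    (Eventually.of_forall fun ζ => ?_)
  rw [Real.norm_of_nonneg (F_nonneg _ _)]
  show F I ζ ≤ (ball I (1 / 2)).indicator (fun ζ : ℂ => 4 * ‖I - ζ‖⁻¹) ζ +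
    24 * (bb ζ.re * aa ζ.im)
  have hb0 : 0 ≤ bb ζ.re := by unfold bb; positivity
  have ha0 : 0 ≤ aa ζ.im := indicator_nonneg (fun t ht => by
    have : (0 : ℝ) < t := ht
    positivity) _
  have hi0 : 0 ≤ (ball I (1 / 2)).indicator (fun ζ : ℂ => 4 * ‖I - ζ‖⁻¹) ζ :=
    indicator_nonneg (fun _ _ => by positivity) _
  by_cases hζ : 0 < ζ.im
  swap
  · have : F I ζ = 0 := indicator_of_notMem (by simpa using hζ) _
    rw [this]
    positivity
  set t := ζ.im with ht
  set N := ‖I - ζ‖ with hN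
  set M := ‖I - starRingEnd ℂ ζ‖ with hM
  have hF : F I ζ = (1 / t) * (2 * √t / M) * N⁻¹ := by
    unfold F
    rw [indicator_of_mem (by simpa using hζ)]
    simp [ht, hN, hM]
  have hMre : |ζ.re| ≤ M := by
    have := Complex.abs_re_le_norm (I - starRingEnd ℂ ζ)
    simpa using this
  have hMim : 1 + t ≤ M := by
    have := Complex.abs_im_le_norm (I - starRingEnd ℂ ζ)
    have h2 : (I - starRingEnd ℂ ζ).im = 1 + t := by simp [ht]
    rw [h2, abs_of_pos (by linarith)] at this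
    exact this
  have hNre : |ζ.re| ≤ N := by
    have := Complex.abs_re_le_norm (I - ζ)
    simpa using this
  have hNim : |1 - t| ≤ N := by
    have := Complex.abs_im_le_norm (I - ζ)
    simpa [ht] using this
  have hM1 : 1 ≤ M := by linarith
  have hsq : √t * √t = t := Real.mul_self_sqrt hζ.le
  have hst : 0 < √t := Real.sqrt_pos.mpr hζ
  have h1t : (1 / t) * (2 * √t / M) = 2 / (√t * M) := by
    rw [div_mul_div_comm, one_mul, div_eq_div_iff (by positivity) (by positivity)]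
    calc 2 * √t * (√t * M) = 2 * (√t * √t) * M := by ring
      _ = 2 * (t * M) := by rw [hsq]; ring
  rw [hF, h1t]
  by_cases hball : ζ ∈ ball I (1 / 2)
  · have hlt : N < 1 / 2 := by
      rw [mem_ball, dist_comm, dist_eq_norm] at hball
      exact hball
    have ht2 : 1 / 2 ≤ t := by
      have := (abs_le.mp (hNim.trans hlt.le)).2
      linarith
    have hs2 : 1 / 2 ≤ √t := by
      rw [Real.le_sqrt (by norm_num) hζ.le]
      linarith
    rw [indicator_of_mem hball]
    have hpos : 0 ≤ 24 * (bb ζ.re * aa t) := by positivity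
    have h4 : 2 / (√t * M) ≤ 4 := by
      rw [div_le_iff₀ (by positivity)]
      nlinarith
    have h5 : 2 / (√t * M) * N⁻¹ ≤ 4 * N⁻¹ := mul_le_mul_of_nonneg_right h4 (by positivity)
    linarith
  · have hge : 1 / 2 ≤ N := by
      rw [mem_ball, dist_comm, dist_eq_norm, not_lt] at hball
      exact hball
    have hNt : t - 1 ≤ N := by
      have := (abs_le.mp hNim).1
      linarith
    set S := 1 + |ζ.re| + t with hS
    have hx0 : 0 ≤ |ζ.re| := abs_nonneg _
    have hS0 : 0 < S := by positivity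
    have hSM : S ≤ 2 * M := by linarith
    have hSN : S ≤ 6 * N := by linarith
    have hN0 : 0 < N := by linarith
    have hM0 : 0 < M := by linarith
    have h6 : 2 / (√t * M) * N⁻¹ ≤ 24 * (t ^ (-(1 / 2) : ℝ) * (S ^ (2 : ℕ))⁻¹) := by
      have e1 : t ^ (-(1 / 2) : ℝ) = (√t)⁻¹ := by
        rw [Real.rpow_neg hζ.le, Real.sqrt_eq_rpow]
      rw [e1]
      have h7 : S ^ 2 ≤ 12 * (M * N) := by nlinarith
      have h8 : (M * N)⁻¹ ≤ 12 * (S ^ 2)⁻¹ := by
        rw [← div_eq_mul_inv, le_div_iff₀ (by positivity), inv_mul_le_iff₀ (by positivity)]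
        linarith
      calc 2 / (√t * M) * N⁻¹ = 2 * (√t)⁻¹ * (M * N)⁻¹ := by
            rw [div_eq_mul_inv, mul_inv, mul_inv]; ring
        _ ≤ 2 * (√t)⁻¹ * (12 * (S ^ 2)⁻¹) := mul_le_mul_of_nonneg_left h8 (by positivity)
        _ = 24 * ((√t)⁻¹ * (S ^ 2)⁻¹) := by ring
    have h9 : (S ^ (2 : ℕ))⁻¹ ≤ (1 + |ζ.re|) ^ (-(5 / 4) : ℝ) * (1 + t) ^ (-(3 / 4) : ℝ) := by
      have e2 : (S ^ (2 : ℕ))⁻¹ = S ^ (-(5 / 4) : ℝ) * S ^ (-(3 / 4) : ℝ) := by
        rw [← Real.rpow_add hS0, ← Real.rpow_natCast, ← Real.rpow_neg hS0.le]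
        norm_num
      rw [e2]
      refine mul_le_mul ?_ ?_ (by positivity) (by positivity)
      · exact Real.rpow_le_rpow_of_nonpos (by positivity) (by linarith) (by norm_num)
      · exact Real.rpow_le_rpow_of_nonpos (by positivity) (by linarith) (by norm_num)
    have haa : aa t = t ^ (-(1 / 2) : ℝ) * (1 + t) ^ (-(3 / 4) : ℝ) :=
      indicator_of_mem (show t ∈ Ioi (0 : ℝ) from hζ) _
    rw [haa, bb, Real.norm_eq_abs]
    calc 2 / (√t * M) * N⁻¹ ≤ 24 * (t ^ (-(1 / 2) : ℝ) * (S ^ (2 : ℕ))⁻¹) := h6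
      _ ≤ 24 * (t ^ (-(1 / 2) : ℝ) *
          ((1 + |ζ.re|) ^ (-(5 / 4) : ℝ) * (1 + t) ^ (-(3 / 4) : ℝ))) := by
          gcongr
      _ = 24 * ((1 + |ζ.re|) ^ (-(5 / 4) : ℝ) *
          (t ^ (-(1 / 2) : ℝ) * (1 + t) ^ (-(3 / 4) : ℝ))) := by ring
      _ ≤ _ := le_add_of_nonneg_left hi0

lemma F_scale (w : ℂ) (hw : 0 < w.im) (ζ : ℂ) :
    F w ζ = (w.im ^ 2)⁻¹ * F I ((w.im)⁻¹ • (ζ - (w.re : ℂ))) := by
  set v := w.im with hv
  set ξ : ℂ := v⁻¹ • (ζ - (w.re : ℂ)) with hξ
  have hζ : ζ = (w.re : ℂ) + v • ξ := by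
    rw [hξ, smul_smul, mul_inv_cancel₀ hw.ne', one_smul]
    ring
  have hw' : w = (w.re : ℂ) + v • I := by
    apply Complex.ext <;> simp [hv]
  have him : ζ.im = v * ξ.im := by
    rw [hζ]
    simp
  by_cases hpos : 0 < ξ.im
  · have hpos' : 0 < ζ.im := by rw [him]; positivity
    unfold F
    rw [indicator_of_mem (show ζ ∈ {ζ : ℂ | 0 < ζ.im} from hpos'),
      indicator_of_mem (show ξ ∈ {ζ : ℂ | 0 < ζ.im} from hpos)]
    have e1 : ‖w - starRingEnd ℂ ζ‖ = v * ‖I - starRingEnd ℂ ξ‖ := by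
      have : w - starRingEnd ℂ ζ = v • (I - starRingEnd ℂ ξ) := by
        conv_lhs => rw [hw', hζ]
        simp only [map_add, Complex.conj_ofReal, Complex.real_smul, map_mul]
        ring
      rw [this, norm_smul, Real.norm_of_nonneg hw.le]
    have e2 : ‖w - ζ‖ = v * ‖I - ξ‖ := by
      have : w - ζ = v • (I - ξ) := by
        conv_lhs => rw [hw', hζ]
        simp only [Complex.real_smul]
        ring
      rw [this, norm_smul, Real.norm_of_nonneg hw.le]
    have e3 : √(ζ.im * w.im) = v * √(ξ.im * I.im) := by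
      rw [him, ← hv, Complex.I_im, mul_one, show v * ξ.im * v = v ^ 2 * ξ.im by ring,
        Real.sqrt_mul (by positivity), Real.sqrt_sq hw.le]
    rw [e1, e2, e3, him]
    have hv0 : v ≠ 0 := hw.ne'
    have hM0 : ‖I - starRingEnd ℂ ξ‖ ≠ 0 := by
      rw [norm_ne_zero_iff]
      intro h
      have := congrArg Complex.im h
      simp at this
      linarith
    field_simp
  · have hpos' : ¬ 0 < ζ.im := by
      rw [him]
      intro h
      exact hpos (pos_of_mul_pos_right h hw.le)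
    unfold F
    rw [indicator_of_notMem (show ζ ∉ {ζ : ℂ | 0 < ζ.im} from hpos'),
      indicator_of_notMem (show ξ ∉ {ζ : ℂ | 0 < ζ.im} from hpos), mul_zero]

/-- **KER.** -/
theorem main : Pool.Agent.W732.Cor.S_ker := by
  refine ⟨∫ ζ, F I ζ, integral_nonneg fun ζ => F_nonneg _ _, ?_⟩
  intro w hw
  show Integrable (fun ζ => F w ζ) ∧ ∫ ζ : ℂ, F w ζ ≤ ∫ ζ, F I ζ
  have hfun : (fun ζ => F w ζ) =
      fun ζ => (w.im ^ 2)⁻¹ * F I ((w.im)⁻¹ • (ζ - (w.re : ℂ))) := by
    funext ζ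
    exact F_scale w hw ζ
  have hv0 : (w.im)⁻¹ ≠ 0 := inv_ne_zero hw.ne'
  have h1 : Integrable (fun ζ : ℂ => F I ((w.im)⁻¹ • ζ)) := F_I_int.comp_smul hv0
  rw [hfun]
  refine ⟨(h1.comp_sub_right (w.re : ℂ)).const_mul _, le_of_eq ?_⟩
  rw [integral_const_mul, integral_sub_right_eq_self (fun ζ : ℂ => F I ((w.im)⁻¹ • ζ)),
    Measure.integral_comp_smul, Complex.finrank_real_complex, smul_eq_mul, ← mul_assoc]
  have hv : 0 < w.im := hw
  rw [abs_of_pos (by positivity)]
  have : (w.im ^ 2)⁻¹ * ((w.im)⁻¹ ^ 2)⁻¹ = 1 := by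
    field_simp
  rw [this, one_mul]

end Pool.Agent.W540.Cor
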